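import Pool.Agent.BaxterLIS.BaxterMain
import Pool.Agent.TwoLIS.TwoMain

/-!
Uniform Baxter, semi-Baxter and strong-Baxter permutations: for each of the three classes some
exponent `α > 1/2` is a lower bound for the longest increasing subsequence with probability
tending to `1`.
-/

namespace Pool.Agent.Results.MP_44fc5c_pr.BaxterTypeLISExponent

/-- For each class `P` among the Baxter, semi-Baxter and strong-Baxter permutations there is
`α > 1/2` such that, for uniform permutations of size `n` in the class, `P(LIS ≥ n ^ α) → 1`. -/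
theorem result :
    ∀ P : (n : ℕ) → Equiv.Perm (Fin n) → Prop,
      (P = (fun n σ => ∀ i j j' k : Fin n, i < j → (j' : ℕ) = (j : ℕ) + 1 → j' < k →
            ¬ (σ j' < σ i ∧ σ i < σ k ∧ σ k < σ j) ∧ ¬ (σ j < σ k ∧ σ k < σ i ∧ σ i < σ j')) ∨
       P = (fun n σ => ∀ i j j' k : Fin n, i < j → (j' : ℕ) = (j : ℕ) + 1 → j' < k →
            ¬ (σ j' < σ i ∧ σ i < σ k ∧ σ k < σ j)) ∨
       P = (fun n σ => ∀ i j j' k : Fin n, i < j → (j' : ℕ) = (j : ℕ) + 1 → j' < k →
            ¬ (σ j' < σ i ∧ σ i < σ k ∧ σ k < σ j) ∧ ¬ (σ j < σ k ∧ σ k < σ i ∧ σ i < σ j') ∧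
            ¬ (σ j' < σ k ∧ σ k < σ i ∧ σ i < σ j))) →
      ∃ α : ℝ, 1 / 2 < α ∧
        Filter.Tendsto
          (fun n : ℕ =>
            (({σ : Equiv.Perm (Fin n) | P n σ ∧ ∃ s : Finset (Fin n),
                StrictMonoOn (fun i => σ i) (s : Set (Fin n)) ∧
                  (n : ℝ) ^ α ≤ (s.card : ℝ)}.ncard : ℝ) /
              ({σ : Equiv.Perm (Fin n) | P n σ}.ncard : ℝ)))
          Filter.atTop (nhds 1) := by
  rintro P (rfl | rfl | rfl)
  · exact Pool.Agent.BaxterLIS.baxter_main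
  · exact Pool.Agent.TwoLIS.semi_main
  · exact Pool.Agent.TwoLIS.strong_main

end Pool.Agent.Results.MP_44fc5c_pr.BaxterTypeLISExponent
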